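import Mathlib

set_option autoImplicit false

namespace Pool.Agent.Results.MP_c843e9_co.Alpha

open SimpleGraph Finset

/-- Local independence number. -/
noncomputable def loc {V : Type} (G : SimpleGraph V) (v : V) : ℕ :=
  (G.induce (G.neighborSet v)).indepNum

/-- Number of vertices at even distance from `v` (including `v`). -/
noncomputable def Deven {V : Type} (G : SimpleGraph V) (v : V) : ℕ := {u | Even (G.dist u v)}.ncard

theorem le_loc {V : Type} [Fintype V] (G : SimpleGraph V) (v : V) (s : Finset V)
    (h1 : ∀ x ∈ s, G.Adj v x) (h2 : ∀ x ∈ s, ∀ y ∈ s, ¬ G.Adj x y) : #s ≤ loc G v := by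
  classical
  have : #(s.subtype (· ∈ G.neighborSet v)) = #s := by
    rw [card_subtype, filter_true_of_mem (p := (· ∈ G.neighborSet v)) h1]
  rw [← this]
  exact IsIndepSet.card_le_indepNum fun a ha b hb _ => h2 a (mem_subtype.1 ha) b (mem_subtype.1 hb)

theorem parent {V : Type} (G : SimpleGraph V) (hc : G.Connected) (v u : V) (h : u ≠ v) :
    ∃ p, G.Adj u p ∧ G.dist p v + 1 = G.dist u v := by
  obtain ⟨w, hw⟩ := hc.exists_walk_length_eq_dist u v
  cases w with
  | nil => exact (h rfl).elim
  | cons a w =>
    refine ⟨_, a, le_antisymm ?_ ?_⟩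
    · rw [← hw, Walk.length_cons]
      exact Nat.succ_le_succ (G.dist_le w)
    · have := hc.dist_triangle (u := u) (v := _) (w := v) (G := G) |>.trans_eq
        (congrArg (· + _) (dist_eq_one_iff_adj.2 a))
      omega

theorem key {V : Type} [Fintype V] (G : SimpleGraph V) (hc : G.Connected) (v : V) (L : ℕ)
    (h1 : 1 ≤ L) (hL : ∀ u, loc G u ≤ L) : G.indepNum + Deven G v ≤ 1 + Deven G v * L := by
  classical
  obtain ⟨I, hI, hn⟩ := G.exists_isNIndepSet_indepNum
  have hI' : ∀ x ∈ I, ∀ y ∈ I, ¬ G.Adj x y := fun x hx y hy h => hI hx hy h.ne h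
  choose! p hp using parent G hc v
  have adj : ∀ x y, G.Adj x y → G.dist x v ≤ G.dist y v + 1 := fun x y a => by
    have := hc.dist_triangle (u := x) (v := y) (w := v) (G := G) |>.trans_eq
      (congrArg (· + _) (dist_eq_one_iff_adj.2 a))
    omega
  have d0 : ∀ x, G.dist x v = 0 ↔ x = v := fun x => hc.dist_eq_zero_iff
  let E : Finset V := {u | Even (G.dist u v)}
  have hE : Deven G v = #E := by rw [Deven, ← Set.ncard_coe_finset]; simp [E]
  let f : V → V := fun x => if Even (G.dist x v) then x else p x
  have od : ∀ x, ¬ Even (G.dist x v) → G.Adj x (p x) ∧ G.dist (p x) v + 1 = G.dist x v :=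
    fun x h => hp x fun e => h (by rw [(d0 x).2 e]; exact Even.zero)
  have fib : ∀ u ∈ E, #{x ∈ I | f x = u} + 1 ≤ L + if u = v then 1 else 0 := by
    intro u hu
    have hu' : Even (G.dist u v) := (mem_filter.1 hu).2
    by_cases hi : u ∈ I
    · have : #{x ∈ I | f x = u} ≤ 1 := card_le_one.2 fun x hx y hy => by
        have k : ∀ x ∈ I.filter (f · = u), x = u := fun x hx => by
          obtain ⟨a, b⟩ := mem_filter.1 hx
          simp only [f] at b
          split_ifs at b with e
          · exact b
          · exact (hI' x a u hi (b ▸ (od x e).1)).elim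
        rw [k x hx, k y hy]
      split_ifs with e
      · omega
      · obtain ⟨a1, a2⟩ := hp u e
        have o : ¬ Even (G.dist (p u) v) := by rw [← a2, Nat.even_add_one] at hu'; exact hu'
        obtain ⟨b1, b2⟩ := od _ o
        have ne : u ≠ p (p u) := fun e => by rw [← e] at b2; omega
        have := (le_loc G (p u) {u, p (p u)} (by simp [a1.symm, b1]) (by
          have : ¬ G.Adj u (p (p u)) := fun a => by have := adj _ _ a; omega
          simp [this, G.adj_comm])).trans (hL _)
        rw [card_pair ne] at this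
        omega
    · have k : ∀ x ∈ I.filter (f · = u), G.Adj u x ∧ G.dist u v + 1 = G.dist x v := fun x hx => by
        obtain ⟨a, b⟩ := mem_filter.1 hx
        simp only [f] at b
        split_ifs at b with e
        · exact (hi (b ▸ a)).elim
        · exact b ▸ ⟨(od x e).1.symm, (od x e).2⟩
      have k2 : ∀ x ∈ I.filter (f · = u), ∀ y ∈ I.filter (f · = u), ¬ G.Adj x y :=
        fun x hx y hy => hI' x (mem_filter.1 hx).1 y (mem_filter.1 hy).1
      split_ifs with e
      · exact Nat.succ_le_succ ((le_loc G u _ (fun x hx => (k x hx).1) k2).trans (hL _))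
      · obtain ⟨a1, a2⟩ := hp u e
        have n1 : p u ∉ I.filter (f · = u) := fun h => by have := (k _ h).2; omega
        have n2 : ∀ x ∈ I.filter (f · = u), ¬ G.Adj x (p u) := fun x hx a => by
          have := adj _ _ a
          have := (k x hx).2
          omega
        rw [← card_insert_of_notMem n1]
        refine (le_loc G u _ ?_ ?_).trans (hL _)
        · exact forall_mem_insert _ _ _ |>.2 ⟨a1, fun x hx => (k x hx).1⟩
        · simp only [forall_mem_insert]
          exact ⟨⟨G.irrefl, fun x hx a => n2 x hx a.symm⟩, fun x hx => ⟨n2 x hx, k2 x hx⟩⟩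
  have s := sum_le_sum fib
  have hv : v ∈ E := by simp [E]
  rw [sum_add_distrib, sum_add_distrib, ← card_eq_sum_card_fiberwise (f := f) fun x _ => ?_,
    sum_ite_eq', if_pos hv, hn] at s
  · simp only [sum_const, smul_eq_mul, mul_one] at s
    rw [hE]
    omega
  · simp only [E, coe_filter, mem_univ, true_and, Set.mem_ofPred_eq, f]
    split_ifs with e
    · exact e
    · rw [← (od x e).2, Nat.even_add_one, not_not] at e
      exact e

theorem result (V : Type) [Fintype V] [Nontrivial V] (G : SimpleGraph V) (hc : G.Connected) :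
    (G.indepNum : ℤ) ≤ 1 + ((⨅ v, Deven G v : ℕ) : ℤ) * (((⨆ v, loc G v : ℕ) : ℤ) - 1) := by
  obtain ⟨v, hv⟩ := exists_eq_ciInf_of_finite (f := Deven G)
  have hL : ∀ u, loc G u ≤ ⨆ v, loc G v := le_ciSup (Set.finite_range _).bddAbove
  obtain ⟨u, hu⟩ := exists_ne v
  obtain ⟨p, a, -⟩ := parent G hc v u hu
  have h1 := (le_loc G u {p} (by simpa using a) (by simp)).trans (hL u)
  have := key G hc v _ h1 hL
  rw [← hv]
  zify at this
  linarith

end Pool.Agent.Results.MP_c843e9_co.Alpha
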